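import Mathlib
import Pool.Agent.Lib_helper79.Gap.Defs3

/-!
# Module FINAL, part A: polynomial inequality, means
-/

set_option autoImplicit false

open Finset Filter Topology

namespace Pool.Agent.Gap

theorem exp_neg_bounds {x : ℝ} (hx : 0 ≤ x) :
    0 ≤ Real.exp (-x) - 1 + x ∧ Real.exp (-x) - 1 + x ≤ x ^ 2 / 2 := by
  constructor
  · have := Real.add_one_le_exp (-x)
    linarith
  · have h1 := Real.quadratic_le_exp_of_nonneg hx
    have h2 : (0 : ℝ) < 1 + x + x ^ 2 / 2 := by positivity
    have h3 : Real.exp (-x) ≤ 1 / (1 + x + x ^ 2 / 2) := by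
      rw [Real.exp_neg, ← one_div]
      exact one_div_le_one_div_of_le h2 h1
    have h4 : 1 / (1 + x + x ^ 2 / 2) ≤ 1 - x + x ^ 2 / 2 := by
      rw [div_le_iff₀ h2]
      nlinarith [sq_nonneg (x ^ 2)]
    linarith

/-- second order Taylor bound of a polynomial with nonnegative coefficients at `exp(-eps)` -/
theorem poly_bound (P : Polynomial ℝ) (hP : ∀ k, 0 ≤ P.coeff k) {eps : ℝ} (he : 0 ≤ eps) :
    |P.eval (Real.exp (-eps)) - P.eval 1 + eps * P.derivative.eval 1| ≤
      eps ^ 2 / 2 * (P.derivative.derivative.eval 1 + P.derivative.eval 1) := by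
  have e0 := P.as_sum_range
  have h1 : P.eval (Real.exp (-eps)) =
      ∑ k ∈ range (P.natDegree + 1), P.coeff k * Real.exp (-(eps * k)) := by
    rw [Polynomial.eval_eq_sum_range]
    refine Finset.sum_congr rfl fun k _ => ?_
    rw [← Real.exp_nat_mul]
    congr 2
    ring
  have h2 : P.eval 1 = ∑ k ∈ range (P.natDegree + 1), P.coeff k := by
    rw [Polynomial.eval_eq_sum_range]
    simp
  have h3 : P.derivative.eval 1 = ∑ k ∈ range (P.natDegree + 1), P.coeff k * k := by
    conv_lhs => rw [e0]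
    rw [Polynomial.derivative_sum, Polynomial.eval_finsetSum]
    refine Finset.sum_congr rfl fun k _ => ?_
    rw [Polynomial.derivative_monomial, Polynomial.eval_monomial]
    simp
  have h4 : P.derivative.derivative.eval 1 =
      ∑ k ∈ range (P.natDegree + 1), P.coeff k * (k * (k - 1)) := by
    conv_lhs => rw [e0]
    rw [Polynomial.derivative_sum, Polynomial.derivative_sum, Polynomial.eval_finsetSum]
    refine Finset.sum_congr rfl fun k _ => ?_
    rw [Polynomial.derivative_monomial, Polynomial.derivative_monomial, Polynomial.eval_monomial]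
    rcases Nat.eq_zero_or_pos k with rfl | hk
    · simp
    · rw [Nat.cast_sub hk]
      simp only [one_pow, mul_one, Nat.cast_one]
      ring
  have e1 : P.eval (Real.exp (-eps)) - P.eval 1 + eps * P.derivative.eval 1 =
      ∑ k ∈ range (P.natDegree + 1), P.coeff k * (Real.exp (-(eps * k)) - 1 + eps * k) := by
    rw [h1, h2, h3, Finset.mul_sum, ← Finset.sum_sub_distrib, ← Finset.sum_add_distrib]
    refine Finset.sum_congr rfl fun k _ => ?_
    ring
  have e2 : eps ^ 2 / 2 * (P.derivative.derivative.eval 1 + P.derivative.eval 1) =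
      ∑ k ∈ range (P.natDegree + 1), P.coeff k * ((eps * k) ^ 2 / 2) := by
    rw [h3, h4, ← Finset.sum_add_distrib, Finset.mul_sum]
    refine Finset.sum_congr rfl fun k _ => ?_
    ring
  rw [e1, e2]
  refine (Finset.abs_sum_le_sum_abs _ _).trans (Finset.sum_le_sum fun k _ => ?_)
  have h5 := exp_neg_bounds (x := eps * k) (by positivity)
  rw [abs_mul, abs_of_nonneg (hP k), abs_of_nonneg h5.1]
  exact mul_le_mul_of_nonneg_left h5.2 (hP k)

/-- convergence of means from convergence of Laplace transforms with bounded second moments -/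
theorem mean_lemma {phin : ℕ → ℝ → ℝ} {phi : ℝ → ℝ} {m : ℕ → ℝ} {C : ℝ} (hC : 0 ≤ C)
    (h1 : ∀ᶠ n in atTop, ∀ lam : ℝ, 0 ≤ lam → |phin n lam - 1 + lam * m n| ≤ C * lam ^ 2)
    (h2 : ∀ lam : ℝ, 0 ≤ lam → Tendsto (fun n => phin n lam) atTop (𝓝 (phi lam))) :
    ∃ M : ℝ, Tendsto m atTop (𝓝 M) ∧ ∀ lam : ℝ, 0 ≤ lam → |phi lam - 1 + lam * M| ≤ C * lam ^ 2 := by
  have hcau : CauchySeq m := by
    rw [Metric.cauchySeq_iff']
    intro ε hε
    obtain ⟨lam, hlam⟩ : ∃ lam, lam = ε / (4 * (C + 1)) := ⟨_, rfl⟩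
    have hl0 : 0 < lam := by rw [hlam]; positivity
    have hCl : C * lam ≤ ε / 4 := by
      rw [hlam]
      calc C * (ε / (4 * (C + 1))) ≤ (C + 1) * (ε / (4 * (C + 1))) := by
            have : 0 ≤ ε / (4 * (C + 1)) := by positivity
            nlinarith
        _ = ε / 4 := by field_simp
    have h3 := h2 lam hl0.le
    rw [Metric.tendsto_atTop] at h3
    obtain ⟨N1, hN1⟩ := h3 (lam * ε / 8) (by positivity)
    obtain ⟨N2, hN2⟩ := eventually_atTop.1 h1
    refine ⟨max N1 N2, fun n hn => ?_⟩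
    have a1 := hN1 n (le_trans (le_max_left _ _) hn)
    have a2 := hN2 n (le_trans (le_max_right _ _) hn) lam hl0.le
    have b1 := hN1 (max N1 N2) (le_max_left _ _)
    have b2 := hN2 (max N1 N2) (le_max_right _ _) lam hl0.le
    rw [Real.dist_eq, abs_lt] at a1 b1
    rw [abs_le] at a2 b2
    rw [Real.dist_eq]
    have h4 : lam * |m n - m (max N1 N2)| < lam * ε := by
      rw [← abs_of_pos hl0, ← abs_mul, abs_of_pos hl0, abs_lt]
      have h5 : C * lam ^ 2 ≤ lam * (ε / 4) := by nlinarith
      constructor <;> nlinarith [mul_pos hl0 hε]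
    exact lt_of_mul_lt_mul_left h4 hl0.le
  obtain ⟨M, hM⟩ := cauchySeq_tendsto_of_complete hcau
  refine ⟨M, hM, fun lam hl => ?_⟩
  have h3 : Tendsto (fun n => |phin n lam - 1 + lam * m n|) atTop
      (𝓝 |phi lam - 1 + lam * M|) :=
    (((h2 lam hl).sub_const 1).add (hM.const_mul lam)).abs
  refine le_of_tendsto h3 ?_
  filter_upwards [h1] with n hn using hn lam hl

/-- two expansions at zero agree -/
theorem mean_unique {phi : ℝ → ℝ} {M M' C C' k : ℝ} (hk : 0 < k)
    (h1 : ∀ lam : ℝ, 0 ≤ lam → |phi lam - 1 + lam * M| ≤ C * lam ^ 2)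
    (h2 : ∀ lam : ℝ, 0 ≤ lam → |phi (k * lam) - 1 + lam * M'| ≤ C' * lam ^ 2) :
    M' = k * M := by
  by_contra hne
  have hpos : 0 < |M' - k * M| := abs_pos.2 (sub_ne_zero.2 hne)
  obtain ⟨D, hD⟩ : ∃ D, D = |C'| + |C| * k ^ 2 + 1 := ⟨_, rfl⟩
  have hD0 : 0 < D := by rw [hD]; positivity
  obtain ⟨lam, hlam⟩ : ∃ lam, lam = |M' - k * M| / (2 * D) := ⟨_, rfl⟩
  have hl0 : 0 < lam := by rw [hlam]; positivity
  have a1 := h1 (k * lam) (by positivity)
  have a2 := h2 lam hl0.le
  have a3 : |lam * (M' - k * M)| ≤ D * lam ^ 2 := by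
    have e : lam * (M' - k * M) = (phi (k * lam) - 1 + lam * M') -
      (phi (k * lam) - 1 + k * lam * M) := by ring
    rw [e]
    refine (abs_sub _ _).trans ?_
    have b1 : C * (k * lam) ^ 2 ≤ |C| * k ^ 2 * lam ^ 2 := by
      have := le_abs_self C
      have h3 : 0 ≤ (k * lam) ^ 2 := by positivity
      nlinarith [mul_le_mul_of_nonneg_right this h3]
    have b2 : C' * lam ^ 2 ≤ |C'| * lam ^ 2 :=
      mul_le_mul_of_nonneg_right (le_abs_self C') (by positivity)
    have b3 : D * lam ^ 2 = |C'| * lam ^ 2 + |C| * k ^ 2 * lam ^ 2 + lam ^ 2 := by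
      rw [hD]; ring
    have b4 : 0 ≤ lam ^ 2 := by positivity
    linarith
  rw [abs_mul, abs_of_pos hl0] at a3
  have a4 : |M' - k * M| ≤ D * lam := by
    have : lam * |M' - k * M| ≤ lam * (D * lam) := by nlinarith
    exact le_of_mul_le_mul_left this hl0
  have a5 : D * lam = |M' - k * M| / 2 := by
    rw [hlam]; field_simp
  linarith

/-! ### exact solutions -/

theorem IsSol.coeff_nonneg {G : GapKernel} {s : ℕ → ℤ → ℝ} {B : ℕ → ℤ → Polynomial ℝ}
    (hs : ∀ m g, 0 ≤ s m g) (h : IsSol G s B) (n : ℕ) :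
    ∀ (g : ℤ) (k : ℕ), 0 ≤ (B n g).coeff k := by
  induction n using Nat.strong_induction_on with
  | _ n ih =>
    intro g k
    rcases lt_or_ge g 1 with hg | hg
    · rw [h.zero n g hg]; simp
    · rw [h.step n g hg, Polynomial.coeff_add, Polynomial.finsetSum_coeff]
      refine add_nonneg ?_ (Finset.sum_nonneg fun i hi => ?_)
      · rw [Polynomial.coeff_C]
        split_ifs
        · exact hs n g
        · exact le_rfl
      · split_ifs with hin
        · rw [Polynomial.finsetSum_coeff]
          refine Finset.sum_nonneg fun g' _ => ?_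
          rw [mul_assoc, Polynomial.coeff_C_mul, Polynomial.coeff_X_pow_mul']
          refine mul_nonneg (G.K_nonneg _ _ _) ?_
          split_ifs
          · have h1 := (G.pos_mem i hi).1
            exact ih (n - i.1) (by omega) _ _
          · exact le_rfl
        · simp

theorem closeP_coeff_nonneg {G : GapKernel} {C0 : ℕ} {s t : ℕ → ℤ → ℝ}
    {B : ℕ → ℤ → Polynomial ℝ} (hs : ∀ m g, 0 ≤ s m g) (ht : ∀ m g, 0 ≤ t m g)
    (h : IsSol G s B) (n k : ℕ) : 0 ≤ (closeP C0 t B n).coeff k := by
  unfold closeP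
  rw [Polynomial.finsetSum_coeff]
  refine Finset.sum_nonneg fun m _ => ?_
  rw [Polynomial.finsetSum_coeff]
  refine Finset.sum_nonneg fun g _ => ?_
  rw [Polynomial.coeff_C_mul]
  exact mul_nonneg (ht m g) (h.coeff_nonneg hs _ _ _)

theorem isCap_cap1_35 : IsCap 1 cap1 where
  nonneg := by intro m g; unfold cap1; split_ifs <;> norm_num
  supp_m := by intro m g h; unfold cap1; rw [if_neg]; omega
  supp_g := by intro m g h; unfold cap1; rw [if_neg]; push_cast at h; omega
  nontriv := ⟨1, 1, by unfold cap1; simp⟩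

/-- the exact solution of the staircase model -/
noncomputable def B0 : ℕ → ℤ → Polynomial ℝ
  | 0, _ => 0
  | (n + 1), g => if g < 1 then 0 else Polynomial.C (cap1 (n + 1) g) +
      ∑ g' ∈ Icc (g - 1) (g + 1), Polynomial.C (stair.K (1, 1) g g') *
        Polynomial.X ^ (g + g').toNat * B0 n g'

theorem B0_isSol : IsSol stair cap1 B0 where
  zero := by
    intro n g hg
    cases n with
    | zero => rfl
    | succ n => unfold B0; rw [if_pos hg]
  step := by
    intro n g hg
    have hS : stair.S = {(1, 1)} := rfl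
    have hR : (stair.R : ℤ) = 1 := rfl
    rw [hS, Finset.sum_singleton]
    cases n with
    | zero =>
      rw [if_neg (by norm_num)]
      have : cap1 0 g = 0 := by unfold cap1; rw [if_neg]; omega
      rw [this]
      simp [B0]
    | succ n =>
      rw [if_pos (by omega)]
      conv_lhs => unfold B0
      rw [if_neg (by omega)]
      congr 1
      refine Finset.sum_congr (by rw [hR]) fun g' _ => ?_
      simp

end Pool.Agent.Gap
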