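import Mathlib
import Pool.Agent.Lib_helper35.Gap.FA
import Pool.Agent.Lib_helper79.Gap.Basic

/-!
# Module FINAL, part B: Laplace transforms and means of general models
-/

set_option autoImplicit false

open Finset Filter Topology

namespace Pool.Agent.Gap

theorem epsn_zero (n : ℕ) : epsn 0 n = 0 := by unfold epsn; simp

theorem epsn_nonneg35 {lam : ℝ} (h : 0 ≤ lam) (n : ℕ) : 0 ≤ epsn lam n := by
  unfold epsn; positivity

/-- Laplace transform of the scaled area -/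
noncomputable def lap (P : ℕ → Polynomial ℝ) (n : ℕ) (lam : ℝ) : ℝ :=
  (P n).eval (Real.exp (-(epsn lam n))) / (P n).eval 1

/-- scaled mean of the area -/
noncomputable def mn (P : ℕ → Polynomial ℝ) (n : ℕ) : ℝ :=
  (P n).derivative.eval 1 / (((n : ℝ) * Real.sqrt n) * (P n).eval 1)

theorem second_moment {P : ℕ → Polynomial ℝ} (hP : ∀ n k, 0 ≤ (P n).coeff k) {rho c C2 : ℝ}
    (hrho : 0 < rho) (hc : 0 < c) (hC2 : 0 ≤ C2)
    (h1 : ∀ᶠ n : ℕ in atTop, c ≤ ((n : ℝ) * Real.sqrt n) * rho ^ n * (P n).eval 1)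
    (h2 : ∀ n : ℕ, rho ^ n * ((P n).derivative.derivative.eval 1 + (P n).derivative.eval 1) ≤
      C2 * ((n : ℝ) * Real.sqrt n)) :
    ∀ᶠ n : ℕ in atTop, ∀ lam : ℝ, 0 ≤ lam →
      |lap P n lam - 1 + lam * mn P n| ≤ C2 / (2 * c) * lam ^ 2 := by
  filter_upwards [h1, eventually_ge_atTop 1] with n hn hn1 lam hlam
  have hn0 : (0 : ℝ) < n := by exact_mod_cast hn1
  have hs : 0 < (n : ℝ) * Real.sqrt n := mul_pos hn0 (Real.sqrt_pos.2 hn0)
  obtain ⟨r, hr⟩ : ∃ r, r = (n : ℝ) * Real.sqrt n := ⟨_, rfl⟩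
  have hrn : 0 < rho ^ n := pow_pos hrho n
  obtain ⟨q, hq⟩ : ∃ q, q = rho ^ n := ⟨_, rfl⟩
  have h2n := h2 n
  have hpb := poly_bound (P n) (hP n) (epsn_nonneg35 hlam n)
  have heps : epsn lam n = lam / r := by unfold epsn; rw [hr]
  rw [← hr, ← hq] at hn
  rw [← hr, ← hq] at h2n
  rw [← hr] at hs
  rw [← hq] at hrn
  obtain ⟨p1, hp1⟩ : ∃ p, p = (P n).eval 1 := ⟨_, rfl⟩
  obtain ⟨d1, hd1⟩ : ∃ p, p = (P n).derivative.eval 1 := ⟨_, rfl⟩
  obtain ⟨d2, hd2⟩ : ∃ p, p = (P n).derivative.derivative.eval 1 := ⟨_, rfl⟩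
  obtain ⟨pe, hpe⟩ : ∃ p, p = (P n).eval (Real.exp (-(epsn lam n))) := ⟨_, rfl⟩
  unfold lap mn
  rw [← hr, ← hpe, ← hp1, ← hd1]
  rw [← hpe, ← hp1, ← hd1, ← hd2, heps] at hpb
  rw [← hp1] at hn
  rw [← hd1, ← hd2] at h2n
  have hp1pos : 0 < p1 := by
    by_contra hcon
    have : r * q * p1 ≤ 0 := mul_nonpos_of_nonneg_of_nonpos (by positivity) (not_lt.1 hcon)
    linarith
  have e : pe / p1 - 1 + lam * (d1 / (r * p1)) = (pe - p1 + lam / r * d1) / p1 := by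
    field_simp
  rw [e, abs_div, abs_of_pos hp1pos, div_le_iff₀ hp1pos]
  refine hpb.trans ?_
  have h3 : d2 + d1 ≤ C2 * r / q := by
    rw [le_div_iff₀ hrn]; linarith
  calc (lam / r) ^ 2 / 2 * (d2 + d1) ≤ (lam / r) ^ 2 / 2 * (C2 * r / q) := by gcongr
    _ = C2 * lam ^ 2 / (2 * (r * q)) := by field_simp
    _ ≤ C2 * lam ^ 2 / (2 * (c / p1)) := by
      have : c / p1 ≤ r * q := by rw [div_le_iff₀ hp1pos]; exact hn
      gcongr
    _ = C2 / (2 * c) * lam ^ 2 * p1 := by field_simp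

namespace GapKernel

variable (G : GapKernel)

theorem tot_one_pos : 0 < G.tot (1, 1) := by
  unfold tot
  refine Finset.sum_pos' (fun _ _ => G.T_nonneg _ _) ⟨0, ?_, ?_⟩
  · rw [Finset.mem_Icc]; constructor <;> omega
  · rw [G.T_one.1]; norm_num

end GapKernel

/-- the staircase model -/
theorem stair_side (hLT1 : LT1_Stmt) (hM2 : M2_Stmt) (hBAL : BAL_Stmt) :
    ∃ (L : ℝ → ℝ) (m0 C : ℝ), 0 < L 0 ∧ 0 < m0 ∧ 0 ≤ C ∧
      (∀ lam : ℝ, 0 ≤ lam → Tendsto (fun n : ℕ => ((n : ℝ) * Real.sqrt n) * (1 / 4 : ℝ) ^ n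
        * (closeP 1 cap1 B0 n).eval (Real.exp (-(epsn lam n)))) atTop (𝓝 (L lam))) ∧
      (∀ lam : ℝ, 0 ≤ lam → |L lam / L 0 - 1 + lam * m0| ≤ C * lam ^ 2) := by
  have hex := hLT1 B0 B0_isSol
  obtain ⟨c, hc, hBAL'⟩ := hBAL B0 B0_isSol
  obtain ⟨C2, hC2⟩ := hM2 stair 1 cap1 cap1 isCap_cap1_35 isCap_cap1_35 B0 B0_isSol
  have hrho : stair.rho = 1 / 4 := rfl
  rw [hrho] at hC2
  obtain ⟨L, hL⟩ : ∃ L : ℝ → ℝ, ∀ lam : ℝ, 0 ≤ lam → Tendsto (fun n : ℕ =>
      ((n : ℝ) * Real.sqrt n) * (1 / 4 : ℝ) ^ n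
        * (closeP 1 cap1 B0 n).eval (Real.exp (-(epsn lam n)))) atTop (𝓝 (L lam)) := by
    refine ⟨fun lam => if h : 0 ≤ lam then (hex lam h).choose else 0, fun lam h => ?_⟩
    simp only [dif_pos h]
    exact (hex lam h).choose_spec
  have hL0 := hL 0 le_rfl
  simp only [epsn_zero, neg_zero, Real.exp_zero] at hL0
  have hlow : ∀ᶠ n : ℕ in atTop, c ≤ ((n : ℝ) * Real.sqrt n) * (1 / 4 : ℝ) ^ n
      * (closeP 1 cap1 B0 n).eval 1 := by
    filter_upwards [eventually_ge_atTop 3] with n hn using (hBAL' n hn).1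
  have hL0pos : 0 < L 0 := lt_of_lt_of_le hc (ge_of_tendsto hL0 hlow)
  have hcoef : ∀ n k, 0 ≤ (closeP 1 cap1 B0 n).coeff k := fun n k =>
    closeP_coeff_nonneg isCap_cap1_35.nonneg isCap_cap1_35.nonneg B0_isSol n k
  have hC2' : ∀ n : ℕ, (1 / 4 : ℝ) ^ n * ((closeP 1 cap1 B0 n).derivative.derivative.eval 1
      + (closeP 1 cap1 B0 n).derivative.eval 1) ≤ |C2| * ((n : ℝ) * Real.sqrt n) := by
    intro n
    refine (hC2 n).trans (mul_le_mul_of_nonneg_right (le_abs_self _) (by positivity))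
  have hsm := second_moment hcoef (by norm_num : (0 : ℝ) < 1 / 4) hc (abs_nonneg C2) hlow hC2'
  have hlap : ∀ lam : ℝ, 0 ≤ lam →
      Tendsto (fun n => lap (closeP 1 cap1 B0) n lam) atTop (𝓝 (L lam / L 0)) := by
    intro lam hlam
    have h1 := (hL lam hlam).div hL0 hL0pos.ne'
    refine h1.congr' ?_
    filter_upwards [eventually_ge_atTop 1] with n hn
    have hn0 : (0 : ℝ) < n := by exact_mod_cast hn
    have hs : 0 < Real.sqrt n := Real.sqrt_pos.2 hn0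
    unfold lap
    rw [Pi.div_apply, mul_div_mul_left]
    positivity
  obtain ⟨m0, hm0, hexp⟩ := mean_lemma (by positivity) hsm hlap
  refine ⟨L, m0, |C2| / (2 * c), hL0pos, ?_, by positivity, hL, hexp⟩
  have hge : ∀ᶠ n : ℕ in atTop, c ≤ mn (closeP 1 cap1 B0) n := by
    filter_upwards [eventually_ge_atTop 3] with n hn
    obtain ⟨h1, h2⟩ := hBAL' n hn
    have hn0 : (0 : ℝ) < n := by
      have : 0 < n := by omega
      exact_mod_cast this
    have hs : 0 < Real.sqrt n := Real.sqrt_pos.2 hn0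
    have hP : 0 < (closeP 1 cap1 B0 n).eval 1 := by
      by_contra hcon
      have : ((n : ℝ) * Real.sqrt n) * (1 / 4 : ℝ) ^ n * (closeP 1 cap1 B0 n).eval 1 ≤ 0 :=
        mul_nonpos_of_nonneg_of_nonpos (by positivity) (not_lt.1 hcon)
      linarith
    unfold mn
    rw [le_div_iff₀ (by positivity)]
    calc c * ((n : ℝ) * Real.sqrt n * (closeP 1 cap1 B0 n).eval 1)
        = c * ((n : ℝ) * Real.sqrt n) * (closeP 1 cap1 B0 n).eval 1 := by ring
      _ ≤ _ := h2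
  exact lt_of_lt_of_le hc (ge_of_tendsto hm0 hge)

/-- general models -/
theorem model_side (hLT : LT_Stmt) (hM2 : M2_Stmt) {L : ℝ → ℝ} {m0 C : ℝ} (hL0 : 0 < L 0)
    (hm0 : 0 < m0)
    (hL : ∀ lam : ℝ, 0 ≤ lam → Tendsto (fun n : ℕ => ((n : ℝ) * Real.sqrt n) * (1 / 4 : ℝ) ^ n
        * (closeP 1 cap1 B0 n).eval (Real.exp (-(epsn lam n)))) atTop (𝓝 (L lam)))
    (hexp : ∀ lam : ℝ, 0 ≤ lam → |L lam / L 0 - 1 + lam * m0| ≤ C * lam ^ 2)
    (G : GapKernel) (C0 : ℕ) (s t : ℕ → ℤ → ℝ) (hs : IsCap C0 s) (ht : IsCap C0 t)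
    (B : ℕ → ℤ → Polynomial ℝ) (hB : IsSol G s B) :
    ∃ b : ℝ, 0 < b ∧ (∀ᶠ n : ℕ in atTop, 0 < (closeP C0 t B n).eval 1) ∧
      Tendsto (mn (closeP C0 t B)) atTop (𝓝 b) ∧
      ∀ lam : ℝ, 0 ≤ lam →
        Tendsto (fun n => lap (closeP C0 t B) n (lam / b)) atTop (𝓝 (L (lam / m0) / L 0)) := by
  obtain ⟨cr, hcr, hLT'⟩ := hLT G C0 s t hs ht B hB B0 B0_isSol
  obtain ⟨C2, hC2⟩ := hM2 G C0 s t hs ht B hB
  have hmb := G.mbar_pos
  have hhb := G.hbar_pos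
  have hsg := G.sig2_pos
  have hrho := G.rho_pos
  obtain ⟨β, hβ⟩ : ∃ β, β = 2 * G.sig2 / G.mbar := ⟨_, rfl⟩
  have hβ0 : 0 < β := by rw [hβ]; positivity
  obtain ⟨k, hk⟩ : ∃ k, k = G.hbar / (2 * G.sig2) * (2 * G.sig2 / G.mbar) ^ (3 / 2 : ℝ) :=
    ⟨_, rfl⟩
  have hk0 : 0 < k := by rw [hk]; positivity
  have hlam0 : ∀ lam, lam0 G lam = k * lam := fun lam => by unfold lam0; rw [hk]
  -- the scale
  set n0 : ℕ → ℕ := fun n => ⌊β * n⌋₊ with hn0
  have h1 : Tendsto (fun n : ℕ => (n0 n : ℝ) / n) atTop (𝓝 (2 * G.sig2 / G.mbar)) := by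
    rw [← hβ]
    exact (tendsto_nat_floor_mul_div_atTop hβ0.le).comp tendsto_natCast_atTop_atTop
  have h2 : Tendsto n0 atTop atTop :=
    tendsto_nat_floor_atTop.comp (tendsto_natCast_atTop_atTop.const_mul_atTop hβ0)
  have h3 := hLT' n0 h1
  have h4 : ∀ lam : ℝ, 0 ≤ lam → Tendsto (fun n : ℕ => ((n : ℝ) * Real.sqrt n) * G.rho ^ n
      * (closeP C0 t B n).eval (Real.exp (-(epsn lam n)))) atTop (𝓝 (cr * L (k * lam))) := by
    intro lam hlam
    have h5 := h3 lam hlam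
    have h6 := ((hL (k * lam) (by positivity)).comp h2).const_mul cr
    have h7 := h5.add h6
    rw [zero_add] at h7
    refine h7.congr fun n => ?_
    simp only [Function.comp_apply, hlam0]
    ring
  have h40 := h4 0 le_rfl
  simp only [epsn_zero, neg_zero, Real.exp_zero, mul_zero] at h40
  have hcL : 0 < cr * L 0 := by positivity
  have hlow : ∀ᶠ n : ℕ in atTop, cr * L 0 / 2 ≤ ((n : ℝ) * Real.sqrt n) * G.rho ^ n
      * (closeP C0 t B n).eval 1 := by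
    filter_upwards [h40.eventually (lt_mem_nhds (half_lt_self hcL))] with n hn using hn.le
  have hcoef : ∀ n k, 0 ≤ (closeP C0 t B n).coeff k := fun n k =>
    closeP_coeff_nonneg hs.nonneg ht.nonneg hB n k
  have hC2' : ∀ n : ℕ, G.rho ^ n * ((closeP C0 t B n).derivative.derivative.eval 1
      + (closeP C0 t B n).derivative.eval 1) ≤ |C2| * ((n : ℝ) * Real.sqrt n) := by
    intro n
    refine (hC2 n).trans (mul_le_mul_of_nonneg_right (le_abs_self _) (by positivity))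
  have hsm := second_moment hcoef hrho (half_pos hcL) (abs_nonneg C2) hlow hC2'
  have hlap : ∀ lam : ℝ, 0 ≤ lam →
      Tendsto (fun n => lap (closeP C0 t B) n lam) atTop (𝓝 (L (k * lam) / L 0)) := by
    intro lam hlam
    have h1 := (h4 lam hlam).div h40 hcL.ne'
    rw [mul_div_mul_left _ _ hcr.ne'] at h1
    refine h1.congr' ?_
    filter_upwards [eventually_ge_atTop 1] with n hn
    have hn0 : (0 : ℝ) < n := by exact_mod_cast hn
    have hs : 0 < Real.sqrt n := Real.sqrt_pos.2 hn0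
    unfold lap
    rw [Pi.div_apply, mul_div_mul_left]
    positivity
  obtain ⟨m', hm', hexp'⟩ := mean_lemma (by positivity) hsm hlap
  have hb : m' = k * m0 := mean_unique (phi := fun lam => L lam / L 0) hk0 hexp hexp'
  refine ⟨m', by rw [hb]; positivity, ?_, hm', fun lam hlam => ?_⟩
  · filter_upwards [hlow, eventually_ge_atTop 1] with n hn hn1
    by_contra hcon
    have : ((n : ℝ) * Real.sqrt n) * G.rho ^ n * (closeP C0 t B n).eval 1 ≤ 0 :=
      mul_nonpos_of_nonneg_of_nonpos (by positivity) (not_lt.1 hcon)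
    linarith
  · have := hlap (lam / m') (by rw [hb]; positivity)
    have e : k * (lam / m') = lam / m0 := by
      rw [hb]; field_simp
    rwa [e] at this

end Pool.Agent.Gap
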