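import Mathlib

/-!
# Module FINAL, part C: weak convergence on the half line from Laplace transforms at integers
-/

set_option autoImplicit false

open Finset Filter Topology MeasureTheory BoundedContinuousFunction
open scoped NNReal ENNReal

namespace Pool.Agent.Gap

/-- the bounded continuous function `exp (-x)` on the half line -/
noncomputable def ef : ℝ≥0 →ᵇ ℝ :=
  BoundedContinuousFunction.ofNormedAddCommGroup (fun x : ℝ≥0 => Real.exp (-(x : ℝ)))
    (by fun_prop) 1 (by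
      intro x
      rw [Real.norm_eq_abs, abs_of_pos (Real.exp_pos _)]
      exact Real.exp_le_one_iff.2 (by simp))

theorem ef_apply (x : ℝ≥0) : ef x = Real.exp (-(x : ℝ)) := rfl

theorem ef_pow (j : ℕ) (x : ℝ≥0) : (ef ^ j) x = Real.exp (-((j : ℝ) * x)) := by
  rw [BoundedContinuousFunction.coe_pow, Pi.pow_apply, ef_apply, ← Real.exp_nat_mul]
  congr 1
  ring

/-- the algebra of polynomials in `exp (-x)` -/
noncomputable def algE : StarSubalgebra ℝ (ℝ≥0 →ᵇ ℝ) where
  toSubalgebra := (Polynomial.aeval ef).range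
  star_mem' := by
    intro a ha
    have : star a = a := by
      ext x
      simp
    rwa [this]

theorem algE_sep : (algE.map (toContinuousMapStarₐ ℝ)).SeparatesPoints := by
  intro v v' hvv'
  refine ⟨ef, ?_, ?_⟩
  · simp only [StarSubalgebra.coe_toSubalgebra, StarSubalgebra.coe_map, Set.mem_image,
      SetLike.mem_coe, exists_exists_and_eq_and]
    refine ⟨ef, ?_, rfl⟩
    change ef ∈ (Polynomial.aeval ef).range
    exact ⟨Polynomial.X, by simp⟩
  · rw [ef_apply, ef_apply]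
    intro h
    apply hvv'
    have := Real.exp_injective h
    exact NNReal.coe_injective (by linarith)

/-- convergence of the integrals of the algebra from the Laplace transforms at integers -/
theorem algE_tendsto {ν : ℕ → ProbabilityMeasure ℝ≥0} {μ : ProbabilityMeasure ℝ≥0}
    (h : ∀ j : ℕ, Tendsto (fun n => ∫ x, Real.exp (-((j : ℝ) * (x : ℝ))) ∂(ν n : Measure ℝ≥0)) atTop
      (𝓝 (∫ x, Real.exp (-((j : ℝ) * (x : ℝ))) ∂(μ : Measure ℝ≥0))))
    (g : ℝ≥0 →ᵇ ℝ) (hg : g ∈ algE) :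
    Tendsto (fun n => ∫ x, g x ∂(ν n : Measure ℝ≥0)) atTop (𝓝 (∫ x, g x ∂(μ : Measure ℝ≥0))) := by
  obtain ⟨p, rfl⟩ : ∃ p : Polynomial ℝ, Polynomial.aeval ef p = g := hg
  induction p using Polynomial.induction_on' with
  | add p q hp hq =>
    have e : ∀ m : ProbabilityMeasure ℝ≥0, ∫ x, (Polynomial.aeval ef (p + q)) x ∂(m : Measure ℝ≥0) =
        ∫ x, (Polynomial.aeval ef p) x ∂(m : Measure ℝ≥0) +
        ∫ x, (Polynomial.aeval ef q) x ∂(m : Measure ℝ≥0) := by
      intro m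
      rw [← integral_add (BoundedContinuousFunction.integrable _ _)
        (BoundedContinuousFunction.integrable _ _)]
      congr 1
      ext x
      rw [map_add, BoundedContinuousFunction.coe_add, Pi.add_apply]
    simp_rw [e]
    exact hp.add hq
  | monomial j a =>
    have e : ∀ m : ProbabilityMeasure ℝ≥0,
        ∫ x, (Polynomial.aeval ef (Polynomial.monomial j a)) x ∂(m : Measure ℝ≥0) =
        a * ∫ x, Real.exp (-((j : ℝ) * (x : ℝ))) ∂(m : Measure ℝ≥0) := by
      intro m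
      rw [← integral_const_mul]
      congr 1
      ext x
      rw [Polynomial.aeval_monomial, Algebra.algebraMap_eq_smul_one, smul_mul_assoc, one_mul,
        BoundedContinuousFunction.coe_smul]
      change a • (ef ^ j) x = _
      rw [ef_pow, smul_eq_mul]
    simp_rw [e]
    exact (h j).const_mul a

/-- tightness from the first moments -/
theorem tight_of_mean {ν : ℕ → ProbabilityMeasure ℝ≥0}
    (h : ∀ n, ∀ K : ℝ≥0, 0 < K → (ν n : Measure ℝ≥0) {x | K < x} ≤ 1 / (K : ℝ≥0∞)) :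
    IsTightMeasureSet {(ν n : Measure ℝ≥0) | n} := by
  rw [isTightMeasureSet_iff_exists_isCompact_measure_compl_le]
  intro ε hε
  rcases eq_or_ne ε ⊤ with rfl | hεt
  · exact ⟨∅, isCompact_empty, fun _ _ => le_top⟩
  obtain ⟨e, rfl⟩ : ∃ e : ℝ≥0, (e : ℝ≥0∞) = ε := ⟨ε.toNNReal, ENNReal.coe_toNNReal hεt⟩
  have he : 0 < e := by exact_mod_cast hε
  refine ⟨Set.Icc 0 (1 / e), isCompact_Icc, ?_⟩
  rintro _ ⟨n, rfl⟩
  have hK : (0 : ℝ≥0) < 1 / e := by positivity
  have e1 : (Set.Icc 0 (1 / e) : Set ℝ≥0)ᶜ = {x | 1 / e < x} := by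
    ext x
    simp
  rw [e1]
  refine (h n (1 / e) hK).trans (le_of_eq ?_)
  rw [one_div, ← ENNReal.coe_inv hK.ne', one_div, inv_inv]

theorem tendsto_of_laplace {ν : ℕ → ProbabilityMeasure ℝ≥0} {μ : ProbabilityMeasure ℝ≥0}
    (ht : ∀ n, ∀ K : ℝ≥0, 0 < K → (ν n : Measure ℝ≥0) {x | K < x} ≤ 1 / (K : ℝ≥0∞))
    (h : ∀ j : ℕ, Tendsto (fun n => ∫ x, Real.exp (-((j : ℝ) * (x : ℝ))) ∂(ν n : Measure ℝ≥0)) atTop
      (𝓝 (∫ x, Real.exp (-((j : ℝ) * (x : ℝ))) ∂(μ : Measure ℝ≥0)))) :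
    Tendsto ν atTop (𝓝 μ) :=
  ProbabilityMeasure.tendsto_of_tight_of_separatesPoints ℝ (tight_of_mean ht) algE_sep
    (algE_tendsto h)

theorem exists_limit {ν : ℕ → ProbabilityMeasure ℝ≥0} {Psi : ℕ → ℝ}
    (ht : ∀ n, ∀ K : ℝ≥0, 0 < K → (ν n : Measure ℝ≥0) {x | K < x} ≤ 1 / (K : ℝ≥0∞))
    (h : ∀ j : ℕ, Tendsto (fun n => ∫ x, Real.exp (-((j : ℝ) * (x : ℝ))) ∂(ν n : Measure ℝ≥0)) atTop
      (𝓝 (Psi j))) :
    ∃ μ : ProbabilityMeasure ℝ≥0, ∀ j : ℕ,
      ∫ x, Real.exp (-((j : ℝ) * (x : ℝ))) ∂(μ : Measure ℝ≥0) = Psi j := by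
  have h_compact : IsCompact (closure (Set.range ν)) := by
    have := isCompact_closure_of_isTightMeasureSet (S := Set.range ν) (by
      have := tight_of_mean ht
      convert this using 1
      ext m
      simp)
    exact this
  have hU : (Ultrafilter.of (atTop : Filter ℕ) : Filter ℕ) ≤ atTop := Ultrafilter.of_le _
  obtain ⟨μ', -, hμ'⟩ := h_compact.ultrafilter_le_nhds
    ((Ultrafilter.of (atTop : Filter ℕ)).map ν)
    (by
      rw [Ultrafilter.coe_map]
      refine le_principal_iff.2 ?_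
      refine mem_map.2 (Filter.univ_mem' fun n => subset_closure ⟨n, rfl⟩))
  refine ⟨μ', fun j => ?_⟩
  have h1 : Tendsto ν (Ultrafilter.of (atTop : Filter ℕ) : Filter ℕ) (𝓝 μ') := hμ'
  have h2 := (ProbabilityMeasure.tendsto_iff_forall_integral_tendsto.1 h1) (ef ^ j)
  simp_rw [ef_pow] at h2
  exact tendsto_nhds_unique h2 ((h j).mono_left hU)

end Pool.Agent.Gap
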