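import Mathlib
import Pool.Agent.Lib_helper35.Gap.FB
import Pool.Agent.Lib_helper35.Gap.FC

/-!
# Module FINAL: one universal law
-/

set_option autoImplicit false

open Finset Filter Topology MeasureTheory BoundedContinuousFunction
open scoped NNReal ENNReal

namespace Pool.Agent.Gap

/-! ### empirical measures -/

/-- the law of `f` under the uniform measure -/
noncomputable def emp {Ω : Type} [Fintype Ω] (f : Ω → ℝ≥0) : Measure ℝ≥0 :=
  ∑ y : Ω, (Fintype.card Ω : ℝ≥0∞)⁻¹ • Measure.dirac (f y)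

open Classical in
theorem emp_apply {Ω : Type} [Fintype Ω] (f : Ω → ℝ≥0) {S : Set ℝ≥0} (hS : MeasurableSet S) :
    emp f S = (Fintype.card Ω : ℝ≥0∞)⁻¹ * ((univ.filter fun y => f y ∈ S).card : ℝ≥0∞) := by
  unfold emp
  rw [Measure.finsetSum_apply]
  simp only [Measure.smul_apply, Measure.dirac_apply' _ hS, smul_eq_mul]
  rw [← Finset.mul_sum]
  congr 1
  rw [Finset.card_filter, Nat.cast_sum]
  refine Finset.sum_congr rfl fun y _ => ?_
  by_cases h : f y ∈ S
  · simp [h]
  · simp [h]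

theorem emp_prob {Ω : Type} [Fintype Ω] [Nonempty Ω] (f : Ω → ℝ≥0) :
    IsProbabilityMeasure (emp f) := by
  constructor
  rw [emp_apply f MeasurableSet.univ]
  simp only [Set.mem_univ, Finset.filter_true, Finset.card_univ]
  rw [ENNReal.inv_mul_cancel]
  · simp
  · exact ENNReal.natCast_ne_top _

theorem emp_integral {Ω : Type} [Fintype Ω] (f : Ω → ℝ≥0) (g : ℝ≥0 →ᵇ ℝ) :
    ∫ x, g x ∂(emp f) = (Fintype.card Ω : ℝ)⁻¹ * ∑ y, g (f y) := by
  unfold emp
  rcases isEmpty_or_nonempty Ω with hE | hN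
  · simp
  have hc : (Fintype.card Ω : ℝ≥0∞)⁻¹ ≠ ⊤ := by
    rw [ENNReal.inv_ne_top]
    exact_mod_cast Fintype.card_ne_zero
  rw [integral_finsetSum_measure]
  · rw [Finset.mul_sum]
    refine Finset.sum_congr rfl fun y _ => ?_
    rw [integral_smul_measure, integral_dirac, smul_eq_mul, ENNReal.toReal_inv]
    simp
  · intro y _
    exact (BoundedContinuousFunction.integrable _ g).smul_measure hc

theorem emp_markov {Ω : Type} [Fintype Ω] [Nonempty Ω] (f : Ω → ℝ≥0)
    (hf : ∑ y, f y ≤ Fintype.card Ω) (K : ℝ≥0) (hK : 0 < K) :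
    emp f {x | K < x} ≤ 1 / (K : ℝ≥0∞) := by
  classical
  change emp f (Set.Ioi K) ≤ _
  rw [emp_apply f (isOpen_Ioi.measurableSet : MeasurableSet (Set.Ioi K))]
  have hc : (0 : ℝ≥0) < Fintype.card Ω := by exact_mod_cast Fintype.card_pos
  obtain ⟨m, hm⟩ : ∃ m, m = (univ.filter fun y => f y ∈ Set.Ioi K).card := ⟨_, rfl⟩
  have h1 : (m : ℝ≥0) * K ≤ Fintype.card Ω := by
    refine le_trans ?_ hf
    calc (m : ℝ≥0) * K = ∑ y ∈ univ.filter fun y => f y ∈ Set.Ioi K, K := by
          rw [Finset.sum_const, hm, nsmul_eq_mul]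
      _ ≤ ∑ y ∈ univ.filter fun y => f y ∈ Set.Ioi K, f y :=
        Finset.sum_le_sum fun y hy => (Finset.mem_filter.1 hy).2.le
      _ ≤ ∑ y, f y := Finset.sum_le_sum_of_subset (Finset.filter_subset _ _)
  have h2 : (m : ℝ≥0) / Fintype.card Ω ≤ 1 / K := by
    rw [div_le_div_iff₀ hc hK, one_mul]
    exact h1
  have h3 : (((m : ℝ≥0) / Fintype.card Ω : ℝ≥0) : ℝ≥0∞) ≤ ((1 / K : ℝ≥0) : ℝ≥0∞) := by
    exact_mod_cast h2
  rw [ENNReal.coe_div hc.ne', ENNReal.coe_div hK.ne'] at h3
  have hm' : ∀ inst : DecidablePred (fun y => f y ∈ Set.Ioi K),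
      (@Finset.filter _ (fun y => f y ∈ Set.Ioi K) inst univ).card = m := by
    intro inst
    rw [hm]
    congr
  rw [hm', mul_comm, ← div_eq_mul_inv]
  simpa using h3

theorem exp_lip {x y : ℝ} (hx : 0 ≤ x) (hy : 0 ≤ y) :
    |Real.exp (-x) - Real.exp (-y)| ≤ |x - y| := by
  wlog h : x ≤ y generalizing x y
  · rw [abs_sub_comm, abs_sub_comm x y]
    exact this hy hx (by linarith)
  have h1 : Real.exp (-y) ≤ Real.exp (-x) := Real.exp_le_exp.2 (by linarith)
  rw [abs_of_nonneg (by linarith), abs_sub_comm, abs_of_nonneg (by linarith)]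
  have h2 : Real.exp (-y) = Real.exp (-x) * Real.exp (-(y - x)) := by
    rw [← Real.exp_add]; congr 1; ring
  have h3 : 1 - (y - x) ≤ Real.exp (-(y - x)) := by
    have := Real.add_one_le_exp (-(y - x))
    linarith
  have h4 : Real.exp (-x) ≤ 1 := Real.exp_le_one_iff.2 (by linarith)
  have h5 : 0 < Real.exp (-x) := Real.exp_pos _
  rw [h2]
  nlinarith

/-! ### area models -/

namespace AreaModel

variable (M : AreaModel)

/-- the generating polynomials -/
noncomputable def P (n : ℕ) : Polynomial ℝ := closeP M.C0 M.t M.B n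

theorem sum_pow (n : ℕ) (hn : M.n1 ≤ n) (y : ℝ) :
    ∑ x : M.Omega n, y ^ (M.A n x) = M.c n * (M.P n).eval y := by
  have h := congrArg (Polynomial.eval y) (M.count n hn)
  rw [Polynomial.eval_finsetSum, Polynomial.eval_mul, Polynomial.eval_C] at h
  simpa [P] using h

theorem card_eq (n : ℕ) (hn : M.n1 ≤ n) :
    (Fintype.card (M.Omega n) : ℝ) = M.c n * (M.P n).eval 1 := by
  have := M.sum_pow n hn 1
  simpa using this

theorem sum_A (n : ℕ) (hn : M.n1 ≤ n) :
    ∑ x : M.Omega n, (M.A n x : ℝ) = M.c n * (M.P n).derivative.eval 1 := by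
  have h := congrArg (fun p : Polynomial ℝ => (Polynomial.derivative p).eval 1) (M.count n hn)
  simp only [Polynomial.derivative_sum, Polynomial.derivative_mul, Polynomial.derivative_C,
    zero_mul, zero_add, Polynomial.eval_finsetSum, Polynomial.eval_mul, Polynomial.eval_C,
    Polynomial.derivative_X_pow, Polynomial.eval_pow, Polynomial.eval_X, one_pow, mul_one] at h
  simpa [P] using h

/-- mean of `T` -/
noncomputable def e (n : ℕ) : ℝ := (∑ y : M.Omega n, M.T n y) / (Fintype.card (M.Omega n) : ℝ)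

/-- the scaled functional -/
noncomputable def f (n : ℕ) (y : M.Omega n) : ℝ≥0 := (M.T n y / M.e n).toNNReal

theorem f_coe (n : ℕ) (he : 0 < M.e n) (y : M.Omega n) : (M.f n y : ℝ) = M.T n y / M.e n := by
  unfold f
  rw [Real.coe_toNNReal]
  exact div_nonneg (M.T_nonneg n y) he.le

/-- everything about one model -/
theorem key (hLT : LT_Stmt) (hM2 : M2_Stmt) {L : ℝ → ℝ} {m0 C : ℝ} (hL0 : 0 < L 0)
    (hm0 : 0 < m0)
    (hL : ∀ lam : ℝ, 0 ≤ lam → Tendsto (fun n : ℕ => ((n : ℝ) * Real.sqrt n) * (1 / 4 : ℝ) ^ n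
        * (closeP 1 cap1 B0 n).eval (Real.exp (-(epsn lam n)))) atTop (𝓝 (L lam)))
    (hexp : ∀ lam : ℝ, 0 ≤ lam → |L lam / L 0 - 1 + lam * m0| ≤ C * lam ^ 2) :
    ∃ ν : ℕ → ProbabilityMeasure ℝ≥0,
      (∀ n, ∀ K : ℝ≥0, 0 < K → (ν n : Measure ℝ≥0) {x | K < x} ≤ 1 / (K : ℝ≥0∞)) ∧
      (∀ j : ℕ, Tendsto (fun n => ∫ x, Real.exp (-((j : ℝ) * (x : ℝ))) ∂(ν n : Measure ℝ≥0))
        atTop (𝓝 (L (j / m0) / L 0))) ∧
      ∀ᶠ n in atTop, ∀ x : ℝ, M.cdf n x = ((ν n : Measure ℝ≥0) {z | (z : ℝ) ≤ x}).toReal := by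
  classical
  obtain ⟨b, hb, hPpos, hmn, hlap⟩ := model_side hLT hM2 hL0 hm0 hL hexp M.G M.C0 M.s M.t
    M.cap_s M.cap_t M.B M.sol
  change ∀ᶠ n : ℕ in atTop, 0 < (M.P n).eval 1 at hPpos
  change Tendsto (mn M.P) atTop (𝓝 b) at hmn
  change ∀ lam : ℝ, 0 ≤ lam →
    Tendsto (fun n => lap M.P n (lam / b)) atTop (𝓝 (L (lam / m0) / L 0)) at hlap
  -- the scaled mean of `T`
  set u : ℕ → ℝ := fun n => M.e n / ((n : ℝ) * Real.sqrt n) with hu
  have hgood : ∀ᶠ n : ℕ in atTop, M.n1 ≤ n ∧ 1 ≤ n ∧ 0 < (M.P n).eval 1 := by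
    filter_upwards [hPpos, eventually_ge_atTop M.n1, eventually_ge_atTop 1] with n h1 h2 h3
      using ⟨h2, h3, h1⟩
  have hsqrt : Tendsto (fun n : ℕ => 1 / Real.sqrt n) atTop (𝓝 0) := by
    have h1 : Tendsto (fun n : ℕ => Real.sqrt n) atTop atTop :=
      Real.tendsto_sqrt_atTop.comp tendsto_natCast_atTop_atTop
    refine h1.inv_tendsto_atTop.congr fun n => ?_
    rw [Pi.inv_apply, one_div]
  have hC1 : ∀ n, M.n1 ≤ n → ∑ x : M.Omega n, |M.T n x - M.A n x| ≤
      (Fintype.card (M.Omega n) : ℝ) * (|M.C1| * n) := by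
    intro n hn
    calc ∑ x : M.Omega n, |M.T n x - M.A n x| ≤ ∑ x : M.Omega n, |M.C1| * n :=
          Finset.sum_le_sum fun x _ => (M.near n hn x).trans
            (mul_le_mul_of_nonneg_right (le_abs_self _) (Nat.cast_nonneg _))
      _ = (Fintype.card (M.Omega n) : ℝ) * (|M.C1| * n) := by
          rw [Finset.sum_const, Finset.card_univ, nsmul_eq_mul]
  have hA : ∀ n, M.n1 ≤ n → 1 ≤ n → 0 < (M.P n).eval 1 →
      (∑ x : M.Omega n, (M.A n x : ℝ)) / (Fintype.card (M.Omega n) : ℝ) =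
        mn M.P n * ((n : ℝ) * Real.sqrt n) := by
    intro n hn hn1 hP
    have hn0 : (0 : ℝ) < n := by exact_mod_cast hn1
    have hs : 0 < Real.sqrt n := Real.sqrt_pos.2 hn0
    have hc := M.c_pos n
    rw [M.sum_A n hn, M.card_eq n hn]
    unfold mn
    field_simp
  have hu_near : ∀ᶠ n : ℕ in atTop, |u n - mn M.P n| ≤ |M.C1| * (1 / Real.sqrt n) := by
    filter_upwards [hgood] with n ⟨hn, hn1, hP⟩
    have hn0 : (0 : ℝ) < n := by exact_mod_cast hn1
    have hs : 0 < Real.sqrt n := Real.sqrt_pos.2 hn0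
    have hc := M.c_pos n
    have hcard : (0 : ℝ) < Fintype.card (M.Omega n) := by
      rw [M.card_eq n hn]; positivity
    have e1 : mn M.P n = ((∑ x : M.Omega n, (M.A n x : ℝ)) / (Fintype.card (M.Omega n) : ℝ)) /
        ((n : ℝ) * Real.sqrt n) := by
      rw [hA n hn hn1 hP, mul_div_cancel_right₀ _ (by positivity)]
    have e2 : u n - mn M.P n = (∑ x : M.Omega n, (M.T n x - M.A n x)) /
        (Fintype.card (M.Omega n) : ℝ) / ((n : ℝ) * Real.sqrt n) := by
      rw [e1, hu, Finset.sum_sub_distrib]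
      unfold AreaModel.e
      ring
    rw [e2, abs_div, abs_div, abs_of_pos hcard,
      abs_of_pos (by positivity : (0 : ℝ) < (n : ℝ) * Real.sqrt n)]
    rw [div_le_iff₀ (by positivity), div_le_iff₀ hcard]
    refine (Finset.abs_sum_le_sum_abs _ _).trans ((hC1 n hn).trans (le_of_eq ?_))
    field_simp
  have hu_lim : Tendsto u atTop (𝓝 b) := by
    have h1 : Tendsto (fun n => u n - mn M.P n) atTop (𝓝 0) := by
      refine squeeze_zero_norm' (a := fun n : ℕ => |M.C1| * (1 / Real.sqrt n)) ?_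
        (by simpa using hsqrt.const_mul |M.C1|)
      filter_upwards [hu_near] with n hn
      rw [Real.norm_eq_abs]
      exact hn
    have h2 := h1.add hmn
    simpa using h2
  have hall : ∀ᶠ n : ℕ in atTop, (M.n1 ≤ n ∧ 1 ≤ n ∧ 0 < (M.P n).eval 1) ∧ 0 < M.e n := by
    filter_upwards [hgood, hu_lim.eventually (lt_mem_nhds hb)] with n h1 h2
    refine ⟨h1, ?_⟩
    have hn0 : (0 : ℝ) < n := by exact_mod_cast h1.2.1
    have hs : 0 < Real.sqrt n := Real.sqrt_pos.2 hn0
    have h3 : M.e n = u n * ((n : ℝ) * Real.sqrt n) := by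
      rw [hu]; field_simp
    rw [h3]
    positivity
  have hne : ∀ n, ((M.n1 ≤ n ∧ 1 ≤ n ∧ 0 < (M.P n).eval 1) ∧ 0 < M.e n) →
      Nonempty (M.Omega n) := by
    intro n ⟨⟨h1, h2, h3⟩, h4⟩
    by_contra hcon
    rw [not_nonempty_iff] at hcon
    have h5 := M.card_eq n h1
    have hc := M.c_pos n
    rw [Fintype.card_eq_zero] at h5
    have : 0 < M.c n * (M.P n).eval 1 := by positivity
    rw [← h5] at this
    simp at this
  -- the laws
  set ν : ℕ → ProbabilityMeasure ℝ≥0 := fun n =>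
    if h : (M.n1 ≤ n ∧ 1 ≤ n ∧ 0 < (M.P n).eval 1) ∧ 0 < M.e n then
      ⟨emp (M.f n), by
        have := hne n h
        exact emp_prob _⟩
    else ⟨Measure.dirac 0, inferInstance⟩ with hν
  have hν1 : ∀ n, ((M.n1 ≤ n ∧ 1 ≤ n ∧ 0 < (M.P n).eval 1) ∧ 0 < M.e n) →
      (ν n : Measure ℝ≥0) = emp (M.f n) := by
    intro n h
    simp only [hν, dif_pos h]
    rfl
  have hν0 : ∀ n, ¬ ((M.n1 ≤ n ∧ 1 ≤ n ∧ 0 < (M.P n).eval 1) ∧ 0 < M.e n) →
      (ν n : Measure ℝ≥0) = Measure.dirac 0 := by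
    intro n h
    simp only [hν, dif_neg h]
    rfl
  refine ⟨ν, ?_, ?_, ?_⟩
  · intro n K hK
    by_cases h : (M.n1 ≤ n ∧ 1 ≤ n ∧ 0 < (M.P n).eval 1) ∧ 0 < M.e n
    · rw [hν1 n h]
      have := hne n h
      refine emp_markov _ ?_ K hK
      rw [← NNReal.coe_le_coe]
      push_cast
      have hcard : (0 : ℝ) < Fintype.card (M.Omega n) := by exact_mod_cast Fintype.card_pos
      have e1 : ∑ y : M.Omega n, (M.f n y : ℝ) = (∑ y : M.Omega n, M.T n y) / M.e n := by
        rw [Finset.sum_div]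
        exact Finset.sum_congr rfl fun y _ => M.f_coe n h.2 y
      rw [e1, div_le_iff₀ h.2]
      refine le_of_eq ?_
      unfold AreaModel.e
      field_simp
    · rw [hν0 n h]
      change Measure.dirac 0 (Set.Ioi K) ≤ _
      rw [Measure.dirac_apply' _ (isOpen_Ioi.measurableSet : MeasurableSet (Set.Ioi K))]
      simp
  · intro j
    have hJ := hlap j (Nat.cast_nonneg j)
    -- the error
    have hD : Tendsto (fun n : ℕ => (j : ℝ) * (|M.C1| * (1 / Real.sqrt n) / u n +
        mn M.P n * |1 / u n - 1 / b|)) atTop (𝓝 0) := by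
      have h1 : Tendsto (fun n : ℕ => |M.C1| * (1 / Real.sqrt n) / u n) atTop (𝓝 (|M.C1| * 0 / b)) :=
        (hsqrt.const_mul |M.C1|).div hu_lim hb.ne'
      have h2 : Tendsto (fun n => |1 / u n - 1 / b|) atTop (𝓝 |1 / b - 1 / b|) :=
        (((tendsto_const_nhds (x := (1 : ℝ))).div hu_lim hb.ne').sub_const _).abs
      have h3 := (h1.add (hmn.mul h2)).const_mul (j : ℝ)
      simpa using h3
    have hdiff : Tendsto (fun n => ∫ x, Real.exp (-((j : ℝ) * (x : ℝ))) ∂(ν n : Measure ℝ≥0) -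
        lap M.P n (j / b)) atTop (𝓝 0) := by
      refine squeeze_zero_norm' ?_ hD
      filter_upwards [hall] with n hn
      have hne' := hne n hn
      obtain ⟨⟨hn1, hn2, hP⟩, he⟩ := hn
      have hn0 : (0 : ℝ) < n := by exact_mod_cast hn2
      have hs : 0 < Real.sqrt n := Real.sqrt_pos.2 hn0
      have hc := M.c_pos n
      obtain ⟨r, hr⟩ : ∃ r, r = (n : ℝ) * Real.sqrt n := ⟨_, rfl⟩
      have hr0 : 0 < r := by rw [hr]; positivity
      have hcard : (0 : ℝ) < Fintype.card (M.Omega n) := by exact_mod_cast Fintype.card_pos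
      obtain ⟨N, hN⟩ : ∃ N, N = (Fintype.card (M.Omega n) : ℝ) := ⟨_, rfl⟩
      have e1 : ∫ x, Real.exp (-((j : ℝ) * (x : ℝ))) ∂(ν n : Measure ℝ≥0) =
          N⁻¹ * ∑ y : M.Omega n, Real.exp (-(j * (M.T n y / M.e n))) := by
        rw [hν1 n ⟨⟨hn1, hn2, hP⟩, he⟩, hN]
        have h1 := emp_integral (M.f n) (ef ^ j)
        simp only [ef_pow] at h1
        rw [h1]
        congr 1
        refine Finset.sum_congr rfl fun y _ => ?_
        rw [M.f_coe n he]
      have e2 : lap M.P n (j / b) =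
          N⁻¹ * ∑ y : M.Omega n, Real.exp (-(j * (M.A n y / (b * r)))) := by
        have h1 := M.sum_pow n hn1 (Real.exp (-(epsn (j / b) n)))
        have h2 : ∑ y : M.Omega n, Real.exp (-(j * (M.A n y / (b * r)))) =
            ∑ y : M.Omega n, Real.exp (-(epsn (j / b) n)) ^ (M.A n y) := by
          refine Finset.sum_congr rfl fun y _ => ?_
          rw [← Real.exp_nat_mul]
          congr 1
          unfold epsn
          rw [← hr]
          field_simp
        rw [h2, h1, hN, M.card_eq n hn1]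
        unfold lap
        field_simp
      rw [e1, e2, ← mul_sub, ← Finset.sum_sub_distrib, Real.norm_eq_abs, abs_mul,
        abs_of_pos (by rw [hN]; positivity : (0 : ℝ) < N⁻¹), inv_mul_le_iff₀ (by rw [hN]; exact hcard)]
      have hun : u n = M.e n / r := by rw [hu, hr]
      have hu0 : 0 < u n := by rw [hun]; positivity
      calc |∑ y : M.Omega n, (Real.exp (-(j * (M.T n y / M.e n))) -
            Real.exp (-(j * (M.A n y / (b * r)))))|
          ≤ ∑ y : M.Omega n, |Real.exp (-(j * (M.T n y / M.e n))) -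
            Real.exp (-(j * (M.A n y / (b * r))))| := Finset.abs_sum_le_sum_abs _ _
        _ ≤ ∑ y : M.Omega n, (j : ℝ) * (|M.T n y - M.A n y| / M.e n +
            M.A n y * |1 / M.e n - 1 / (b * r)|) := by
          refine Finset.sum_le_sum fun y _ => ?_
          have hT := M.T_nonneg n y
          refine (exp_lip (by positivity) (by positivity)).trans ?_
          rw [← mul_sub, abs_mul, abs_of_nonneg (Nat.cast_nonneg j)]
          refine mul_le_mul_of_nonneg_left ?_ (Nat.cast_nonneg j)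
          have e3 : M.T n y / M.e n - M.A n y / (b * r) =
              (M.T n y - M.A n y) / M.e n + M.A n y * (1 / M.e n - 1 / (b * r)) := by
            ring
          rw [e3]
          refine (abs_add_le _ _).trans (le_of_eq ?_)
          have e6 : |(M.A n y : ℝ)| = M.A n y := abs_of_nonneg (Nat.cast_nonneg (M.A n y))
          rw [abs_div, abs_of_pos he, abs_mul, e6]
        _ = (j : ℝ) * ((∑ y : M.Omega n, |M.T n y - M.A n y|) / M.e n +
            (∑ y : M.Omega n, (M.A n y : ℝ)) * |1 / M.e n - 1 / (b * r)|) := by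
          rw [← Finset.mul_sum, Finset.sum_add_distrib, ← Finset.sum_div, ← Finset.sum_mul]
        _ ≤ (j : ℝ) * ((N * (|M.C1| * n)) / M.e n +
            (N * (mn M.P n * r)) * |1 / M.e n - 1 / (b * r)|) := by
          have h1 := hC1 n hn1
          have h2 : ∑ y : M.Omega n, (M.A n y : ℝ) = N * (mn M.P n * r) := by
            rw [hN, hr, ← hA n hn1 hn2 hP]
            field_simp
          rw [h2, hN]
          gcongr
        _ = N * ((j : ℝ) * (|M.C1| * (1 / Real.sqrt n) / u n +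
            mn M.P n * |1 / u n - 1 / b|)) := by
          have e4 : |1 / u n - 1 / b| = r * |1 / M.e n - 1 / (b * r)| := by
            rw [← abs_of_pos hr0, ← abs_mul, abs_of_pos hr0, hun]
            congr 1
            field_simp
          have e5 : |M.C1| * (1 / Real.sqrt n) / u n = |M.C1| * n / M.e n := by
            rw [hun, hr]
            field_simp
          rw [e4, e5]
          ring
    have := hdiff.add hJ
    simpa using this
  · filter_upwards [hall] with n hn x
    have hne' := hne n hn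
    rw [hν1 n hn]
    have hS : MeasurableSet {z : ℝ≥0 | (z : ℝ) ≤ x} :=
      measurableSet_le measurable_coe_nnreal_real measurable_const
    rw [emp_apply _ hS, ENNReal.toReal_mul, ENNReal.toReal_inv]
    have hcard : (0 : ℝ) < Fintype.card (M.Omega n) := by exact_mod_cast Fintype.card_pos
    unfold AreaModel.cdf
    rw [div_eq_inv_mul]
    simp only [ENNReal.toReal_natCast]
    congr 2
    congr 1
    ext y
    simp only [Finset.mem_filter, Finset.mem_univ, true_and, Set.mem_ofPred_eq]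
    rw [M.f_coe n hn.2 y, div_le_iff₀ hn.2]
    unfold AreaModel.e
    rw [← mul_div_assoc, le_div_iff₀ hcard]

end AreaModel

theorem FINAL (hLT : LT_Stmt) (hLT1 : LT1_Stmt) (hM2 : M2_Stmt) (hBAL : BAL_Stmt) :
    FINAL_Stmt := by
  obtain ⟨L, m0, C, hL0, hm0, hC, hL, hexp⟩ := stair_side hLT1 hM2 hBAL
  by_cases h : Nonempty AreaModel
  · obtain ⟨M1⟩ := h
    obtain ⟨ν1, ht1, hl1, -⟩ := M1.key hLT hM2 hL0 hm0 hL hexp
    obtain ⟨μ, hμ⟩ := exists_limit ht1 hl1
    refine ⟨(μ : Measure ℝ≥0).map (fun z : ℝ≥0 => (z : ℝ)),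
      Measure.isProbabilityMeasure_map measurable_coe_nnreal_real.aemeasurable, fun M x hx => ?_⟩
    obtain ⟨ν, ht, hl, hc⟩ := M.key hLT hM2 hL0 hm0 hL hexp
    have h1 : Tendsto ν atTop (𝓝 μ) := by
      refine tendsto_of_laplace ht fun j => ?_
      rw [hμ j]
      exact hl j
    rw [Measure.map_apply measurable_coe_nnreal_real (measurableSet_singleton x)] at hx
    have h2 : (μ : Measure ℝ≥0) (frontier {z : ℝ≥0 | (z : ℝ) ≤ x}) = 0 := by
      refine measure_mono_null ?_ hx
      have h3 := NNReal.continuous_coe.frontier_preimage_subset (Set.Iic x)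
      rw [frontier_Iic] at h3
      exact h3
    have h3 := ProbabilityMeasure.tendsto_measure_of_null_frontier_of_tendsto' h1 h2
    have h4 := (ENNReal.tendsto_toReal (measure_ne_top _ _)).comp h3
    rw [Measure.map_apply measurable_coe_nnreal_real measurableSet_Iic]
    refine h4.congr' ?_
    filter_upwards [hc] with n hn
    rw [hn x]
    rfl
  · exact ⟨Measure.dirac 0, inferInstance, fun M => (h ⟨M⟩).elim⟩

end Pool.Agent.Gap
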